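import Mathlib
import Pool.Agent.H81.TruncOneDim

set_option autoImplicit false

open scoped RealInnerProductSpace Matrix

namespace Pool.Agent.Results.MP_5c9c6a_an.GradientNotInjective

/-- Euclidean `n`-space. -/
abbrev E (n : ℕ) : Type := EuclideanSpace ℝ (Fin n)

/-- The Hessian matrix `H_f(x)`, with entries `∂_i ∂_j f (x)`. -/
noncomputable def hessian {n : ℕ} (f : E n → ℝ) (x : E n) : Matrix (Fin n) (Fin n) ℝ :=
  fun i j => fderiv ℝ (fderiv ℝ f) x (EuclideanSpace.single i 1) (EuclideanSpace.single j 1)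

/-- `Hess⁺(f)`: the set of points at which the Hessian matrix is positive definite. -/
def hessPos {n : ℕ} (f : E n → ℝ) : Set (E n) := {x | (hessian f x).PosDef}

/-- The critical set `C(f)`. -/
def crit {n : ℕ} (f : E n → ℝ) : Set (E n) := {x | gradient f x = 0}

/-- The truncation `T_q(f) = max {q, f}`. -/
noncomputable def trunc {n : ℕ} (q : ℝ) (f : E n → ℝ) : E n → ℝ := fun x => max q (f x)

/-- The levels `q ≥ inf f` such that `T_r(f)` is convex for every `r ≥ q`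
(`inf f` is taken in the extended reals). -/
def convexLevels {n : ℕ} (f : E n → ℝ) : Set ℝ :=
  {q | (⨅ x, ((f x : ℝ) : EReal)) ≤ (q : EReal) ∧
    ∀ r : ℝ, q ≤ r → ConvexOn ℝ Set.univ (trunc r f)}

/-- The smallest convexity level `scl(f)`, as an extended real number. -/
noncomputable def scl {n : ℕ} (f : E n → ℝ) : EReal :=
  sInf ((fun q : ℝ => (q : EReal)) '' convexLevels f)

/-- The standing hypotheses (H). -/
structure HypH {n : ℕ} (f : E n → ℝ) : Prop where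
  /-- `f` is `C²`. -/
  contDiff : ContDiff ℝ 2 f
  /-- `f` is not convex. -/
  not_convex : ¬ ConvexOn ℝ Set.univ f
  /-- `f` is truncated convex. -/
  truncated_convex : (convexLevels f).Nonempty
  /-- `f` is Morse. -/
  morse : ∀ p ∈ crit f, IsUnit (hessian f p)
  /-- The critical set is bounded. -/
  bounded_crit : Bornology.IsBounded (crit f)
  /-- The complement of `Hess⁺(f)` is bounded. -/
  bounded_compl : Bornology.IsBounded (hessPos f)ᶜ
  /-- `scl(f)` lies in the image of `f` (in particular it is a real number). -/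
  scl_mem_image : ∃ x, ((f x : ℝ) : EReal) = scl f
  /-- `scl(f)` is a regular value of `f`. -/
  scl_regular : ∀ x, ((f x : ℝ) : EReal) = scl f → gradient f x ≠ 0
  /-- The overlevel set of `scl(f)` is contained in `Hess⁺(f)`. -/
  over_subset : {x | scl f < ((f x : ℝ) : EReal)} ⊆ hessPos f

/-- `R(f) = Hess⁺(f) \ f⁻¹(scl(f), +∞)`. -/
def R {n : ℕ} (f : E n → ℝ) : Set (E n) := hessPos f \ {x | scl f < ((f x : ℝ) : EReal)}

section Calculus

variable {n : ℕ} (i0 i1 : Fin n)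

/-- The example: `f(x) = |x|⁴ - 2 x_0² + x_1 / 2`. -/
noncomputable def ex (x : E n) : ℝ := (‖x‖ ^ 2) ^ 2 - 2 * (x i0) ^ 2 + (1 / 2) * x i1

/-- its first derivative -/
noncomputable def ex1 (x : E n) : E n →L[ℝ] ℝ :=
  (4 * ‖x‖ ^ 2) • innerSL ℝ x - (4 * x i0) • (EuclideanSpace.proj i0 : E n →L[ℝ] ℝ)
    + (1 / 2 : ℝ) • (EuclideanSpace.proj i1 : E n →L[ℝ] ℝ)

/-- The real inner product as a continuous bilinear map. -/
noncomputable def ip (n : ℕ) : E n →L[ℝ] E n →L[ℝ] ℝ := innerSL ℝ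

theorem ip_apply (v w : E n) : ip n v w = ⟪v, w⟫ := rfl

theorem ip_eq (v : E n) : ip n v = innerSL ℝ v := rfl

/-- its second derivative -/
noncomputable def ex2 (x : E n) : E n →L[ℝ] E n →L[ℝ] ℝ :=
  (4 * ‖x‖ ^ 2) • ip n
    + ((8 : ℝ) • innerSL ℝ x).smulRight (innerSL ℝ x)
    - ((4 : ℝ) • (EuclideanSpace.proj i0 : E n →L[ℝ] ℝ)).smulRight
        (EuclideanSpace.proj i0 : E n →L[ℝ] ℝ)

theorem hasFDerivAt_coord (i : Fin n) (x : E n) :
    HasFDerivAt (fun x : E n => x i) (EuclideanSpace.proj i : E n →L[ℝ] ℝ) x :=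
  (EuclideanSpace.proj i : E n →L[ℝ] ℝ).hasFDerivAt

theorem hasFDerivAt_ex (x : E n) : HasFDerivAt (ex i0 i1) (ex1 i0 i1 x) x := by
  have h1 : HasFDerivAt (fun x : E n => ‖x‖ ^ 2) (2 • innerSL ℝ x) x :=
    (hasStrictFDerivAt_norm_sq x).hasFDerivAt
  have h2 := (h1.pow 2).sub (((hasFDerivAt_coord i0 x).pow 2).const_mul 2)
  have h3 := h2.add ((hasFDerivAt_coord i1 x).const_mul (1 / 2 : ℝ))
  refine h3.congr_fderiv ?_
  ext v
  simp [ex1]
  ring

theorem hasFDerivAt_ex1 (x : E n) : HasFDerivAt (ex1 i0 i1) (ex2 i0 x) x := by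
  have h1 : HasFDerivAt (fun x : E n => 4 * ‖x‖ ^ 2) ((4 : ℝ) • (2 • innerSL ℝ x)) x :=
    ((hasStrictFDerivAt_norm_sq x).hasFDerivAt).const_mul 4
  have h2 : HasFDerivAt (fun x : E n => innerSL ℝ x) (ip n) x :=
    (ip n).hasFDerivAt
  have h3 := h1.smul h2
  have h4 := ((hasFDerivAt_coord i0 x).const_mul 4).smul_const
    (EuclideanSpace.proj i0 : E n →L[ℝ] ℝ)
  have h5 := (h3.sub h4).add_const ((1 / 2 : ℝ) • (EuclideanSpace.proj i1 : E n →L[ℝ] ℝ))
  refine h5.congr_fderiv ?_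
  ext v w
  simp [ex2, ip_apply, -mul_eq_mul_right_iff]
  ring

theorem fderiv_ex : fderiv ℝ (ex i0 i1) = ex1 i0 i1 :=
  funext fun x => (hasFDerivAt_ex i0 i1 x).fderiv

theorem fderiv_fderiv_ex (x : E n) : fderiv ℝ (fderiv ℝ (ex i0 i1)) x = ex2 i0 x := by
  rw [fderiv_ex]
  exact (hasFDerivAt_ex1 i0 i1 x).fderiv

theorem ex1_apply (x v : E n) :
    ex1 i0 i1 x v = 4 * ‖x‖ ^ 2 * ⟪x, v⟫ - 4 * x i0 * v i0 + (1 / 2) * v i1 := by
  simp [ex1]

theorem ex2_apply (x v w : E n) :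
    ex2 i0 x v w = 4 * ‖x‖ ^ 2 * ⟪v, w⟫ + 8 * ⟪x, v⟫ * ⟪x, w⟫ - 4 * v i0 * w i0 := by
  simp [ex2, ip_apply]

end Calculus

section Algebra

variable {n : ℕ} {i0 i1 : Fin n}

/-- splitting off one coordinate of the inner product, in squared form -/
theorem cauchy_split (x v : E n) (i : Fin n) :
    (⟪x, v⟫ - x i * v i) ^ 2 ≤ (‖x‖ ^ 2 - x i ^ 2) * (‖v‖ ^ 2 - v i ^ 2) := by
  have e1 : ⟪x, v⟫ - x i * v i = ∑ j ∈ Finset.univ.erase i, x j * v j := by
    have : ⟪x, v⟫ = ∑ j, x j * v j := by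
      simp [PiLp.inner_apply, mul_comm]
    rw [this, ← Finset.add_sum_erase Finset.univ _ (Finset.mem_univ i)]
    ring
  have e2 : ∀ y : E n, ‖y‖ ^ 2 - y i ^ 2 = ∑ j ∈ Finset.univ.erase i, y j ^ 2 := by
    intro y
    rw [EuclideanSpace.real_norm_sq_eq, ← Finset.add_sum_erase Finset.univ _ (Finset.mem_univ i)]
    ring
  rw [e1, e2, e2]
  exact Finset.sum_mul_sq_le_sq_mul_sq _ _ _

theorem sq_coord_le (x : E n) (i : Fin n) : x i ^ 2 ≤ ‖x‖ ^ 2 := by
  rw [EuclideanSpace.real_norm_sq_eq]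
  exact Finset.single_le_sum (f := fun j => x j ^ 2) (fun j _ => sq_nonneg _) (Finset.mem_univ i)

/-- The quadratic form of the Hessian is positive when `3 r⁴ > 3 r² - 2 x₀²`. -/
theorem quad_pos (x v : E n) (hx : 3 * ‖x‖ ^ 2 - 2 * x i0 ^ 2 < 3 * (‖x‖ ^ 2) ^ 2)
    (hv : v ≠ 0) :
    0 < 4 * ‖x‖ ^ 2 * ‖v‖ ^ 2 + 8 * ⟪x, v⟫ ^ 2 - 4 * v i0 ^ 2 := by
  have hcs := cauchy_split x v i0
  have hxi := sq_coord_le x i0
  have hvi := sq_coord_le v i0
  have hvn : 0 < ‖v‖ ^ 2 := by positivity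
  set r2 := ‖x‖ ^ 2 with hr2
  set V := ‖v‖ ^ 2 with hV
  set a := x i0 with ha
  set b := v i0 with hb
  set p := ⟪x, v⟫ with hp
  obtain ⟨s, hs⟩ : ∃ s, s = p - a * b := ⟨_, rfl⟩
  have hps : p = s + a * b := by rw [hs]; ring
  rw [← hs] at hcs
  rw [hps]
  clear_value r2 V a b p
  clear hps hs
  obtain ⟨P, hP⟩ : ∃ P, P = r2 - a ^ 2 := ⟨_, rfl⟩
  obtain ⟨W, hW⟩ : ∃ W, W = V - b ^ 2 := ⟨_, rfl⟩
  have hP0 : 0 ≤ P := by rw [hP]; linarith
  have hW0 : 0 ≤ W := by rw [hW]; linarith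
  have hr : r2 = P + a ^ 2 := by rw [hP]; ring
  have hVV : V = W + b ^ 2 := by rw [hW]; ring
  rw [← hP, ← hW] at hcs
  have hr2pos : 0 < r2 := by
    rcases lt_or_eq_of_le (show 0 ≤ r2 by rw [hr]; positivity) with h | h
    · exact h
    · exfalso
      rw [← h] at hx
      nlinarith [sq_nonneg a]
  rcases eq_or_ne b 0 with hb0 | hb0
  · subst hb0
    have hWp : 0 < W := by
      rw [hVV] at hvn
      linarith
    rw [hVV]
    have : 0 < r2 * W := mul_pos hr2pos hWp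
    nlinarith [sq_nonneg s]
  · have hb2 : 0 < b ^ 2 := by positivity
    rcases lt_or_eq_of_le hP0 with hPp | hPz
    · have hA : 0 < 3 * r2 ^ 2 - 3 * r2 + 2 * a ^ 2 := by linarith
      have hid : (2 * P + r2) * P * (r2 * (W + b ^ 2) + 2 * (s + a * b) ^ 2 - b ^ 2) =
          ((2 * P + r2) * s + 2 * P * a * b) ^ 2
            + P * b ^ 2 * (3 * r2 ^ 2 - 3 * r2 + 2 * a ^ 2)
            + (2 * P + r2) * r2 * (P * W - s ^ 2) := by
        rw [hr]
        ring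
      have hpos : 0 < (2 * P + r2) * P * (r2 * (W + b ^ 2) + 2 * (s + a * b) ^ 2 - b ^ 2) := by
        rw [hid]
        have t1 : 0 ≤ ((2 * P + r2) * s + 2 * P * a * b) ^ 2 := sq_nonneg _
        have t2 : 0 < P * b ^ 2 * (3 * r2 ^ 2 - 3 * r2 + 2 * a ^ 2) := by positivity
        have t3 : 0 ≤ (2 * P + r2) * r2 * (P * W - s ^ 2) :=
          mul_nonneg (by positivity) (by linarith)
        linarith
      have h2 : 0 < (2 * P + r2) * P := by positivity
      have h3 := pos_of_mul_pos_right hpos h2.le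
      rw [hVV]
      linarith
    · have hs0 : s = 0 := by
        rw [← hPz, zero_mul] at hcs
        nlinarith [sq_nonneg s, sq_eq_zero_iff.1 (le_antisymm hcs (sq_nonneg s))]
      rw [← hPz, zero_add] at hr
      subst hs0
      rw [hr] at hx hr2pos
      have h3a : 1 < 3 * a ^ 2 := by
        by_contra hcon
        push Not at hcon
        nlinarith
      rw [hVV, hr]
      nlinarith [mul_nonneg (sq_nonneg a) hW0, mul_pos hb2 (sub_pos.2 h3a)]

theorem lt_of_ex_gt (x : E n) (h : 3 / 2 < ex i0 i1 x) :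
    3 * ‖x‖ ^ 2 - 2 * x i0 ^ 2 < 3 * (‖x‖ ^ 2) ^ 2 := by
  by_contra hcon
  push Not at hcon
  have h0 := sq_coord_le x i0
  have h1 := sq_coord_le x i1
  have hn : 0 ≤ ‖x‖ := norm_nonneg x
  unfold ex at h
  set r := ‖x‖ with hr
  have hr2 : r ^ 2 ≤ 1 := by
    by_contra h2
    push Not at h2
    nlinarith [sq_nonneg (x i0)]
  have hx1 : x i1 ≤ 1 := by
    by_contra h2
    push Not at h2
    nlinarith
  nlinarith [sq_nonneg (x i0)]

theorem clm_sum (L : E n →L[ℝ] ℝ) (v : E n) :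
    ∑ j, L (EuclideanSpace.single j 1) * v j = L v := by
  conv_rhs => rw [← (EuclideanSpace.basisFun (Fin n) ℝ).sum_repr v]
  simp [map_sum, mul_comm]

theorem hessian_ex_apply (x : E n) (i j : Fin n) :
    hessian (ex i0 i1) x i j =
      ex2 i0 x (EuclideanSpace.single i 1) (EuclideanSpace.single j 1) := by
  rw [hessian, fderiv_fderiv_ex]

theorem ex2_symm (x v w : E n) : ex2 i0 x v w = ex2 i0 x w v := by
  rw [ex2_apply, ex2_apply, real_inner_comm v w]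
  ring

theorem hessian_mulVec (x v : E n) (i : Fin n) :
    (hessian (ex i0 i1) x *ᵥ v.ofLp) i = ex2 i0 x (EuclideanSpace.single i 1) v := by
  rw [← clm_sum (ex2 i0 x (EuclideanSpace.single i 1)) v]
  simp only [Matrix.mulVec, dotProduct, hessian_ex_apply]

theorem posDef_of (x : E n) (hx : 3 * ‖x‖ ^ 2 - 2 * x i0 ^ 2 < 3 * (‖x‖ ^ 2) ^ 2) :
    (hessian (ex i0 i1) x).PosDef := by
  apply Matrix.PosDef.of_dotProduct_mulVec_pos
  · ext i j
    rw [Matrix.conjTranspose_apply, hessian_ex_apply, hessian_ex_apply, star_trivial]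
    exact ex2_symm _ _ _
  · intro v hv
    obtain ⟨w, rfl⟩ : ∃ w : E n, v = w.ofLp := ⟨WithLp.toLp 2 v, rfl⟩
    have hw : w ≠ 0 := by
      rintro rfl
      exact hv rfl
    have e1 : star w.ofLp ⬝ᵥ (hessian (ex i0 i1) x *ᵥ w.ofLp) = ex2 i0 x w w := by
      have : ex2 i0 x w w = (ex2 i0 x).flip w w := rfl
      rw [this, ← clm_sum ((ex2 i0 x).flip w) w, dotProduct]
      refine Finset.sum_congr rfl fun i _ => ?_
      rw [hessian_mulVec]
      simp [mul_comm]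
    rw [e1, ex2_apply, real_inner_self_eq_norm_sq]
    have := quad_pos x w hx hw
    calc (0 : ℝ) < _ := this
      _ = _ := by ring

theorem mem_hessPos (x : E n) (hx : 3 * ‖x‖ ^ 2 - 2 * x i0 ^ 2 < 3 * (‖x‖ ^ 2) ^ 2) :
    x ∈ hessPos (ex i0 i1) := posDef_of x hx

theorem convexOn_trunc_ex (r : ℝ) (hr : 3 / 2 ≤ r) :
    ConvexOn ℝ Set.univ (trunc r (ex (n := n) i0 i1)) := by
  refine ⟨convex_univ, ?_⟩
  intro x _ y _ a b ha hb hab
  have hline : ∀ s : ℝ, HasDerivAt (fun s : ℝ => x + s • (y - x)) (y - x) s := by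
    intro s
    have := ((hasDerivAt_id s).smul_const (y - x)).const_add x
    simpa using this
  have h1 : ∀ s : ℝ, HasDerivAt (fun s : ℝ => ex i0 i1 (x + s • (y - x)))
      (ex1 i0 i1 (x + s • (y - x)) (y - x)) s := by
    intro s
    exact (hasFDerivAt_ex i0 i1 (x + s • (y - x))).comp_hasDerivAt s (hline s)
  have h2 : ∀ s : ℝ, HasDerivAt (fun s : ℝ => ex1 i0 i1 (x + s • (y - x)) (y - x))
      (ex2 i0 (x + s • (y - x)) (y - x) (y - x)) s := by
    intro s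
    have h3 := (hasFDerivAt_ex1 i0 i1 (x + s • (y - x))).comp_hasDerivAt s (hline s)
    have h4 := h3.clm_apply (hasDerivAt_const s (y - x))
    simpa using h4
  have h3 : ∀ s : ℝ, r < ex i0 i1 (x + s • (y - x)) →
      0 ≤ ex2 i0 (x + s • (y - x)) (y - x) (y - x) := by
    intro s hs
    have h5 := lt_of_ex_gt (x + s • (y - x)) (lt_of_le_of_lt hr hs)
    rcases eq_or_ne (y - x) 0 with h0 | h0
    · rw [h0]
      simp
    · have := quad_pos (x + s • (y - x)) (y - x) h5 h0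
      rw [ex2_apply, real_inner_self_eq_norm_sq]
      nlinarith
  have hkey := (Pool.Agent.H81.convexOn_max_of_deriv2_nonneg h1 h2 h3).2 (Set.mem_univ 0)
    (Set.mem_univ 1) ha hb hab
  simp only [smul_eq_mul, mul_zero, mul_one, zero_add, zero_smul, add_zero, one_smul] at hkey
  have e1 : x + b • (y - x) = a • x + b • y := by
    have : a = 1 - b := by linarith
    subst this
    module
  rw [e1] at hkey
  have e2 : x + (y - x) = y := by abel
  rw [e2] at hkey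
  simpa [trunc] using hkey

end Algebra

section Points

variable {n : ℕ} (i0 i1 : Fin n)

/-- The point `s e_0 + t e_1`. -/
noncomputable def pt (s t : ℝ) : E n := EuclideanSpace.single i0 s + EuclideanSpace.single i1 t

variable {i0 i1}

theorem pt_i0 (h : i0 ≠ i1) (s t : ℝ) : pt i0 i1 s t i0 = s := by
  simp [pt, h]

theorem pt_i1 (h : i0 ≠ i1) (s t : ℝ) : pt i0 i1 s t i1 = t := by
  simp [pt, h.symm]

theorem norm_pt_sq (h : i0 ≠ i1) (s t : ℝ) : ‖pt i0 i1 s t‖ ^ 2 = s ^ 2 + t ^ 2 := by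
  unfold pt
  rw [← real_inner_self_eq_norm_sq, inner_add_left, inner_add_right, inner_add_right]
  simp [h, h.symm, EuclideanSpace.inner_single_left]

theorem ex_pt (h : i0 ≠ i1) (s t : ℝ) :
    ex i0 i1 (pt i0 i1 s t) = (s ^ 2 + t ^ 2) ^ 2 - 2 * s ^ 2 + 1 / 2 * t := by
  unfold ex
  rw [norm_pt_sq h, pt_i0 h, pt_i1 h]

theorem mid_pt (s t : ℝ) :
    (1 / 2 : ℝ) • pt i0 i1 s t + (1 / 2 : ℝ) • pt i0 i1 (-s) t = pt i0 i1 0 t := by
  unfold pt
  ext i
  simp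
  split_ifs <;> ring

theorem exists_high (q : ℝ) (hq : q < 3 / 2) : ∃ t : ℝ, 0 < t ∧ t < 1 ∧ q < t ^ 4 + 1 / 2 * t := by
  obtain ⟨e, he1, he2, he3⟩ : ∃ e : ℝ, 0 < e ∧ e < 1 ∧ 9 / 2 * e < 3 / 2 - q := by
    refine ⟨min ((3 / 2 - q) / 9) (1 / 2), ?_, ?_, ?_⟩
    · apply lt_min
      · linarith
      · norm_num
    · exact lt_of_le_of_lt (min_le_right _ _) (by norm_num)
    · have := min_le_left ((3 / 2 - q) / 9) (1 / 2)
      linarith
  refine ⟨1 - e, by linarith, by linarith, ?_⟩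
  have : 1 - 4 * e ≤ (1 - e) ^ 4 := by
    nlinarith [sq_nonneg (1 - e), sq_nonneg e, mul_pos he1 he1, sq_nonneg ((1 - e) ^ 2 - 1),
      sq_nonneg (e * (e - 2))]
  linarith

theorem not_convexOn_trunc (h : i0 ≠ i1) (q : ℝ) (hq : q < 3 / 2) :
    ¬ ConvexOn ℝ Set.univ (trunc q (ex i0 i1)) := by
  intro hc
  obtain ⟨t, ht0, ht1, htq⟩ := exists_high q hq
  have hpos : 0 < 1 - t ^ 2 := by nlinarith
  obtain ⟨s, hs⟩ : ∃ s : ℝ, s ^ 2 = 1 - t ^ 2 := ⟨Real.sqrt (1 - t ^ 2), Real.sq_sqrt hpos.le⟩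
  have key := hc.2 (Set.mem_univ (pt i0 i1 s t)) (Set.mem_univ (pt i0 i1 (-s) t))
    (show (0 : ℝ) ≤ 1 / 2 by norm_num) (show (0 : ℝ) ≤ 1 / 2 by norm_num)
    (show (1 / 2 : ℝ) + 1 / 2 = 1 by norm_num)
  rw [mid_pt] at key
  simp only [trunc, ex_pt h, smul_eq_mul] at key
  have e1 : (0 ^ 2 + t ^ 2) ^ 2 - 2 * 0 ^ 2 + 1 / 2 * t = t ^ 4 + 1 / 2 * t := by ring
  have e2 : (s ^ 2 + t ^ 2) ^ 2 - 2 * s ^ 2 + 1 / 2 * t = 2 * t ^ 2 - 1 + 1 / 2 * t := by
    rw [hs]; ring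
  have e3 : ((-s) ^ 2 + t ^ 2) ^ 2 - 2 * (-s) ^ 2 + 1 / 2 * t = 2 * t ^ 2 - 1 + 1 / 2 * t := by
    rw [neg_sq, hs]; ring
  rw [e1, e2, e3, max_eq_right htq.le] at key
  have h4 : 2 * t ^ 2 - 1 + 1 / 2 * t < t ^ 4 + 1 / 2 * t := by
    have : 0 < (1 - t ^ 2) ^ 2 := by positivity
    nlinarith
  have h5 : max q (2 * t ^ 2 - 1 + 1 / 2 * t) < t ^ 4 + 1 / 2 * t := max_lt htq h4
  linarith

theorem not_convexOn_ex (h : i0 ≠ i1) : ¬ ConvexOn ℝ Set.univ (ex i0 i1) := by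
  intro hc
  have : ConvexOn ℝ Set.univ (trunc 0 (ex i0 i1)) :=
    (convexOn_const (0 : ℝ) convex_univ).sup hc
  exact not_convexOn_trunc h 0 (by norm_num) this

theorem convexLevels_ex (h : i0 ≠ i1) : convexLevels (ex i0 i1) = Set.Ici (3 / 2) := by
  ext q
  rw [Set.mem_Ici]
  constructor
  · rintro ⟨-, h2⟩
    by_contra hq
    exact not_convexOn_trunc h q (not_le.1 hq) (h2 q le_rfl)
  · intro hq
    refine ⟨?_, fun r hr => convexOn_trunc_ex r (hq.trans hr)⟩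
    refine (iInf_le _ (pt i0 i1 0 1)).trans ?_
    rw [ex_pt h]
    exact_mod_cast (show ((0 : ℝ) ^ 2 + 1 ^ 2) ^ 2 - 2 * 0 ^ 2 + 1 / 2 * 1 ≤ q by linarith)

theorem scl_ex (h : i0 ≠ i1) : scl (ex i0 i1) = ((3 / 2 : ℝ) : EReal) := by
  rw [scl, convexLevels_ex h]
  apply IsLeast.csInf_eq
  constructor
  · exact ⟨3 / 2, Set.mem_Ici.2 le_rfl, rfl⟩
  · rintro _ ⟨q, hq, rfl⟩
    exact EReal.coe_le_coe_iff.2 hq

theorem gradient_eq_zero_iff (x : E n) : gradient (ex i0 i1) x = 0 ↔ ex1 i0 i1 x = 0 := by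
  rw [gradient, fderiv_ex]
  simp

theorem crit_facts (h : i0 ≠ i1) (x : E n) (hx : ex1 i0 i1 x = 0) :
    4 * ‖x‖ ^ 2 * x i0 = 4 * x i0 ∧ 4 * ‖x‖ ^ 2 * x i1 = - 1 / 2 ∧
      x i0 ^ 2 + x i1 ^ 2 = ‖x‖ ^ 2 := by
  have h0 := congrArg (fun L => L (EuclideanSpace.single i0 1)) hx
  have h1 := congrArg (fun L => L (EuclideanSpace.single i1 1)) hx
  have hxx := congrArg (fun L => L x) hx
  simp only [ex1_apply, zero_apply] at h0 h1 hxx
  rw [real_inner_self_eq_norm_sq] at hxx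
  simp [EuclideanSpace.inner_single_right, h, h.symm] at h0 h1
  have c0 : 4 * ‖x‖ ^ 2 * x i0 = 4 * x i0 := by linarith
  have c1 : 4 * ‖x‖ ^ 2 * x i1 = - 1 / 2 := by linarith
  refine ⟨c0, c1, ?_⟩
  have hr : ‖x‖ ^ 2 ≠ 0 := by
    intro hr
    rw [hr] at c1
    norm_num at c1
  have : 4 * ‖x‖ ^ 2 * (x i0 ^ 2 + x i1 ^ 2) = 4 * ‖x‖ ^ 2 * ‖x‖ ^ 2 := by
    have e1 : 4 * ‖x‖ ^ 2 * (x i0 ^ 2 + x i1 ^ 2) =
      (4 * ‖x‖ ^ 2 * x i0) * x i0 + (4 * ‖x‖ ^ 2 * x i1) * x i1 := by ring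
    rw [e1, c0, c1]
    linarith
  exact mul_left_cancel₀ (by positivity) this

theorem crit_norm_le (h : i0 ≠ i1) (x : E n) (hx : ex1 i0 i1 x = 0) : ‖x‖ ^ 2 ≤ 1 := by
  obtain ⟨c0, c1, c2⟩ := crit_facts h x hx
  by_contra hcon
  push Not at hcon
  have hx0 : x i0 = 0 := by
    have : (‖x‖ ^ 2 - 1) * x i0 = 0 := by linarith
    rcases mul_eq_zero.1 this with h3 | h3
    · linarith
    · exact h3
  rw [hx0] at c2
  have h4 : x i1 ^ 2 = ‖x‖ ^ 2 := by linarith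
  have h5 : (4 * ‖x‖ ^ 2 * x i1) ^ 2 = 1 / 4 := by rw [c1]; norm_num
  have h6 : (4 * ‖x‖ ^ 2 * x i1) ^ 2 = 16 * (‖x‖ ^ 2) ^ 3 := by
    calc (4 * ‖x‖ ^ 2 * x i1) ^ 2 = 16 * (‖x‖ ^ 2) ^ 2 * x i1 ^ 2 := by ring
      _ = 16 * (‖x‖ ^ 2) ^ 3 := by rw [h4]; ring
  have h7 : (1 : ℝ) < (‖x‖ ^ 2) ^ 3 := by
    have := pow_lt_pow_left₀ hcon (by norm_num) (n := 3) (by norm_num)
    simpa using this
  linarith

theorem crit_value_lt (h : i0 ≠ i1) (x : E n) (hx : ex1 i0 i1 x = 0) :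
    ex i0 i1 x < 3 / 2 := by
  obtain ⟨c0, c1, c2⟩ := crit_facts h x hx
  have hr := crit_norm_le h x hx
  have hx1 : x i1 ≤ 0 := by
    by_contra hcon
    push Not at hcon
    have : 0 ≤ 4 * ‖x‖ ^ 2 * x i1 := by positivity
    linarith
  unfold ex
  have h1 : (‖x‖ ^ 2) ^ 2 ≤ 1 := by nlinarith [sq_nonneg ‖x‖]
  nlinarith [sq_nonneg (x i0)]

theorem isUnit_hessian (h : i0 ≠ i1) (x : E n) (hx : ex1 i0 i1 x = 0) :
    IsUnit (hessian (ex i0 i1) x) := by
  rw [Matrix.isUnit_iff_isUnit_det, isUnit_iff_ne_zero]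
  intro hdet
  obtain ⟨v, hv0, hv⟩ := Matrix.exists_mulVec_eq_zero_iff.2 hdet
  obtain ⟨V, rfl⟩ : ∃ w : E n, v = w.ofLp := ⟨WithLp.toLp 2 v, rfl⟩
  have hV0 : V ≠ 0 := by
    rintro rfl
    exact hv0 rfl
  have hker : ∀ w : E n, ex2 i0 x w V = 0 := by
    intro w
    have : ex2 i0 x w V = (ex2 i0 x).flip V w := rfl
    rw [this, ← clm_sum ((ex2 i0 x).flip V) w]
    refine Finset.sum_eq_zero fun i _ => ?_
    have h2 : (ex2 i0 x).flip V (EuclideanSpace.single i 1) = 0 := by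
      rw [ContinuousLinearMap.flip_apply, ← hessian_mulVec (i1 := i1), hv]
      rfl
    rw [h2, zero_mul]
  obtain ⟨c0, c1, c2⟩ := crit_facts h x hx
  have k0 := hker (EuclideanSpace.single i0 1)
  have kV := hker V
  have kx := hker x
  rw [ex2_apply] at k0 kV kx
  rw [real_inner_self_eq_norm_sq] at kV kx
  simp [EuclideanSpace.inner_single_left, EuclideanSpace.inner_single_right] at k0
  set p := ⟪x, V⟫ with hp
  have hr : 0 < ‖x‖ ^ 2 := by
    rcases lt_or_eq_of_le (sq_nonneg ‖x‖) with h3 | h3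
    · exact h3
    · rw [← h3] at c1
      norm_num at c1
  have hVn : 0 < ‖V‖ ^ 2 := by positivity
  have hfac : (‖x‖ ^ 2 - 1) * x i0 = 0 := by linarith
  have hgoal : p = 0 ∧ V i0 = 0 := by
    rcases mul_eq_zero.1 hfac with h1 | h1
    · have hr1 : ‖x‖ ^ 2 = 1 := by linarith
      rw [hr1] at c1 c2 k0 kx
      have hx1 : x i1 = - 1 / 8 := by linarith
      have hx0 : x i0 ≠ 0 := by
        intro h4
        rw [h4, hx1] at c2
        norm_num at c2
      have hp0 : p = 0 := by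
        have : x i0 * p = 0 := by linarith
        rcases mul_eq_zero.1 this with h5 | h5
        · exact absurd h5 hx0
        · exact h5
      refine ⟨hp0, ?_⟩
      rw [hp0] at kx
      have : x i0 * V i0 = 0 := by linarith
      rcases mul_eq_zero.1 this with h5 | h5
      · exact absurd h5 hx0
      · exact h5
    · rw [h1] at kx c2 k0
      have hp0 : p = 0 := by
        have : ‖x‖ ^ 2 * p = 0 := by linarith
        rcases mul_eq_zero.1 this with h5 | h5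
        · exact absurd h5 hr.ne'
        · exact h5
      refine ⟨hp0, ?_⟩
      have h6 : (‖x‖ ^ 2 - 1) * V i0 = 0 := by
        rw [hp0] at k0
        linarith
      rcases mul_eq_zero.1 h6 with h5 | h5
      · exfalso
        have hr1 : ‖x‖ ^ 2 = 1 := by linarith
        rw [hr1] at c1 c2
        have hx1 : x i1 = - 1 / 8 := by linarith
        rw [hx1] at c2
        norm_num at c2
      · exact h5
  rw [hgoal.1, hgoal.2] at kV
  have : ‖x‖ ^ 2 * ‖V‖ ^ 2 = 0 := by linarith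
  have : 0 < ‖x‖ ^ 2 * ‖V‖ ^ 2 := mul_pos hr hVn
  linarith

theorem hypH_ex (h : i0 ≠ i1) : HypH (ex i0 i1) where
  contDiff := by
    unfold ex
    have h1 : ContDiff ℝ 2 (fun x : E n => ‖x‖ ^ 2) := contDiff_norm_sq ℝ
    have h2 : ∀ i : Fin n, ContDiff ℝ 2 (fun x : E n => x i) := fun i =>
      (EuclideanSpace.proj i : E n →L[ℝ] ℝ).contDiff
    exact ((h1.pow 2).sub (contDiff_const.mul ((h2 i0).pow 2))).add
      (contDiff_const.mul (h2 i1))
  not_convex := not_convexOn_ex h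
  truncated_convex := by
    rw [convexLevels_ex h]
    exact Set.nonempty_Ici
  morse := by
    intro p hp
    exact isUnit_hessian h p ((gradient_eq_zero_iff p).1 hp)
  bounded_crit := by
    rw [isBounded_iff_forall_norm_le]
    refine ⟨1, fun x hx => ?_⟩
    have := crit_norm_le h x ((gradient_eq_zero_iff x).1 hx)
    exact (sq_le_one_iff₀ (norm_nonneg x)).1 this
  bounded_compl := by
    rw [isBounded_iff_forall_norm_le]
    refine ⟨1, fun x hx => ?_⟩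
    by_contra hcon
    push Not at hcon
    apply hx
    apply mem_hessPos
    have h1 : 1 < ‖x‖ ^ 2 := by nlinarith [norm_nonneg x]
    nlinarith [sq_nonneg (x i0)]
  scl_mem_image := by
    refine ⟨pt i0 i1 0 1, ?_⟩
    rw [scl_ex h, ex_pt h]
    norm_num
  scl_regular := by
    intro x hx hg
    rw [scl_ex h, EReal.coe_eq_coe_iff] at hx
    have := crit_value_lt h x ((gradient_eq_zero_iff x).1 hg)
    linarith
  over_subset := by
    intro x hx
    have hx' : scl (ex i0 i1) < ((ex i0 i1 x : ℝ) : EReal) := hx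
    rw [scl_ex h, EReal.coe_lt_coe_iff] at hx'
    exact mem_hessPos x (lt_of_ex_gt x hx')

theorem mem_R (h : i0 ≠ i1) (x : E n)
    (hx : 3 * ‖x‖ ^ 2 - 2 * x i0 ^ 2 < 3 * (‖x‖ ^ 2) ^ 2) (hx2 : ex i0 i1 x ≤ 3 / 2) :
    x ∈ R (ex i0 i1) := by
  refine ⟨mem_hessPos x hx, ?_⟩
  intro hx'
  have hx'' : scl (ex i0 i1) < ((ex i0 i1 x : ℝ) : EReal) := hx'
  rw [scl_ex h, EReal.coe_lt_coe_iff] at hx''
  linarith

/-- the path joining `e_0` to `-e_0` inside `R(f)` -/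
noncomputable def path (i0 i1 : Fin n) (θ : ℝ) : E n :=
  pt i0 i1 ((1 + Real.sin θ / 10) * Real.cos θ) (-((1 + Real.sin θ / 10) * Real.sin θ))

theorem continuous_path : Continuous (path i0 i1) := by
  unfold path pt
  have h1 : ∀ i : Fin n, Continuous fun s : ℝ => (EuclideanSpace.single i s : E n) := by
    intro i
    have : (fun s : ℝ => (EuclideanSpace.single i s : E n)) =
        fun s : ℝ => s • (EuclideanSpace.single i (1 : ℝ) : E n) := by
      funext s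
      ext j
      simp
    rw [this]
    fun_prop
  have h2 := h1 i0
  have h3 := h1 i1
  fun_prop

theorem path_mem_R (h : i0 ≠ i1) (θ : ℝ) (hθ : θ ∈ Set.Icc 0 Real.pi) :
    path i0 i1 θ ∈ R (ex i0 i1) := by
  have hs0 : 0 ≤ Real.sin θ := Real.sin_nonneg_of_mem_Icc hθ
  have hs1 : Real.sin θ ≤ 1 := Real.sin_le_one θ
  have hsc := Real.sin_sq_add_cos_sq θ
  set s := Real.sin θ with hs
  set c := Real.cos θ with hc
  have hc2 : c ^ 2 = 1 - s ^ 2 := by linarith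
  have hn : ‖path i0 i1 θ‖ ^ 2 = (1 + s / 10) ^ 2 := by
    unfold path
    rw [norm_pt_sq h, ← hs, ← hc]
    calc ((1 + s / 10) * c) ^ 2 + (-((1 + s / 10) * s)) ^ 2
        = (1 + s / 10) ^ 2 * (s ^ 2 + c ^ 2) := by ring
      _ = (1 + s / 10) ^ 2 := by rw [hsc, mul_one]
  have h0 : path i0 i1 θ i0 = (1 + s / 10) * c := pt_i0 h _ _
  apply mem_R h
  · rw [hn, h0, mul_pow, hc2]
    have h1 : 0 < (1 + s / 10) ^ 2 := by positivity
    have h2 : 0 < 3 * ((1 + s / 10) ^ 2 - 1) + 2 * (1 - s ^ 2) := by nlinarith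
    nlinarith [mul_pos h1 h2]
  · unfold path
    rw [ex_pt h, ← hs, ← hc]
    have e1 : ((1 + s / 10) * c) ^ 2 + (-((1 + s / 10) * s)) ^ 2 = (1 + s / 10) ^ 2 := by
      calc ((1 + s / 10) * c) ^ 2 + (-((1 + s / 10) * s)) ^ 2
          = (1 + s / 10) ^ 2 * (s ^ 2 + c ^ 2) := by ring
        _ = (1 + s / 10) ^ 2 := by rw [hsc, mul_one]
    rw [e1]
    have h3 : 0 ≤ ((1 + s / 10) * c) ^ 2 := sq_nonneg _
    have h4 : 0 ≤ (1 + s / 10) * s := by positivity
    have h5 : 1 + s / 10 ≤ 11 / 10 := by linarith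
    have h6 : ((1 + s / 10) ^ 2) ^ 2 ≤ ((11 / 10) ^ 2) ^ 2 := by gcongr
    have h7 : (((11 : ℝ) / 10) ^ 2) ^ 2 ≤ 3 / 2 := by norm_num
    linarith

theorem gradient_pt_eq (h : i0 ≠ i1) :
    gradient (ex i0 i1) (pt i0 i1 1 0) = gradient (ex i0 i1) (pt i0 i1 (-1) 0) := by
  have key : ex1 i0 i1 (pt i0 i1 1 0) = ex1 i0 i1 (pt i0 i1 (-1) 0) := by
    ext v
    have hin : ∀ s t : ℝ, ⟪pt i0 i1 s t, v⟫ = s * v i0 + t * v i1 := by
      intro s t
      unfold pt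
      rw [inner_add_left, EuclideanSpace.inner_single_left, EuclideanSpace.inner_single_left]
      simp
    rw [ex1_apply, ex1_apply, norm_pt_sq h, norm_pt_sq h, pt_i0 h, pt_i0 h, hin, hin]
    ring
  rw [gradient, gradient, fderiv_ex, key]

end Points

/-- **Main theorem.** For every `n ≥ 2` there is a function `f` on Euclidean `n`-space satisfying
the standing hypotheses (H), and a connected component `K` of `R(f)`, on which `∇ f` is not
injective. (An example is `f(x) = |x|⁴ - 2 x_0² + x_1 / 2`.) -/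
theorem result (n : ℕ) (hn : 2 ≤ n) :
    ∃ f : E n → ℝ, HypH f ∧
      ∃ K : Set (E n), (∃ p ∈ R f, K = connectedComponentIn (R f) p) ∧
        ∃ x ∈ K, ∃ y ∈ K, x ≠ y ∧ gradient f x = gradient f y := by
  let i0 : Fin n := ⟨0, by omega⟩
  let i1 : Fin n := ⟨1, by omega⟩
  have h : i0 ≠ i1 := by
    intro h
    have := congrArg Fin.val h
    simp [i0, i1] at this
  have e0 : path i0 i1 0 = pt i0 i1 1 0 := by
    simp [path]
  have e1 : path i0 i1 Real.pi = pt i0 i1 (-1) 0 := by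
    simp [path]
  have hpi : (0 : ℝ) ≤ Real.pi := Real.pi_pos.le
  have hsub : path i0 i1 '' Set.Icc 0 Real.pi ⊆ R (ex i0 i1) := by
    rintro _ ⟨θ, hθ, rfl⟩
    exact path_mem_R h θ hθ
  have hpre : IsPreconnected (path i0 i1 '' Set.Icc 0 Real.pi) :=
    isPreconnected_Icc.image _ continuous_path.continuousOn
  have m0 : pt i0 i1 1 0 ∈ path i0 i1 '' Set.Icc 0 Real.pi := ⟨0, ⟨le_rfl, hpi⟩, e0⟩
  have m1 : pt i0 i1 (-1) 0 ∈ path i0 i1 '' Set.Icc 0 Real.pi := ⟨Real.pi, ⟨hpi, le_rfl⟩, e1⟩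
  have hcc := hpre.subset_connectedComponentIn m0 hsub
  refine ⟨ex i0 i1, hypH_ex h, connectedComponentIn (R (ex i0 i1)) (pt i0 i1 1 0),
    ⟨pt i0 i1 1 0, hsub m0, rfl⟩, pt i0 i1 1 0, hcc m0, pt i0 i1 (-1) 0, hcc m1, ?_,
    gradient_pt_eq h⟩
  intro heq
  have := congrArg (fun x : E n => x i0) heq
  simp only [pt_i0 h] at this
  norm_num at this

end Pool.Agent.Results.MP_5c9c6a_an.GradientNotInjective
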